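import Mathlib

/-!
# A biorthogonal system of Larson–Wogen type

`H = ℓ²(ℕ)`; the coordinate `0` is an extra one, the coordinates `k + 1` carry the system.
-/

set_option autoImplicit false

open scoped InnerProductSpace ComplexConjugate
open Filter Topology

namespace Pool.Agent.V110.LW

noncomputable abbrev H := lp (fun _ : ℕ => ℂ) 2

noncomputable def e (k : ℕ) : H := lp.single 2 k (1 : ℂ)

theorem inner_e (k : ℕ) (x : H) : ⟪e k, x⟫_ℂ = x k := by
  rw [e, lp.inner_single_left]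
  simp

theorem e_apply (k i : ℕ) : (e k : H) i = if i = k then 1 else 0 := by
  rw [e, lp.coeFn_single]
  by_cases h : i = k
  · subst h; simp
  · simp [h]

/-- `b j = 4 ^ (j - 1)` for `j ≥ 1`, and `b 0 = 0` -/
noncomputable def b (j : ℕ) : ℂ := if j = 0 then 0 else (4 : ℂ) ^ (j - 1)

theorem b_zero : b 0 = 0 := by simp [b]
theorem b_succ (j : ℕ) : b (j + 1) = 4 ^ j := by simp [b]

noncomputable def f (n : ℕ) : H :=
  if n % 2 = 0 then e (n + 1)
  else e (n + 1) - (4 : ℂ) ^ (n / 2) • e n + (4 : ℂ) ^ (n / 2) • e (n + 2)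

noncomputable def g (n : ℕ) : H :=
  if n % 2 = 0 then e (n + 1) + (4 : ℂ) ^ (n / 2) • e (n + 2) - b (n / 2) • e n
  else e (n + 1)

theorem f_even (j : ℕ) : f (2 * j) = e (2 * j + 1) := by simp [f]

theorem f_odd (j : ℕ) : f (2 * j + 1) =
    e (2 * j + 2) - (4 : ℂ) ^ j • e (2 * j + 1) + (4 : ℂ) ^ j • e (2 * j + 3) := by
  have h1 : (2 * j + 1) % 2 = 1 := by omega
  have h2 : (2 * j + 1) / 2 = j := by omega
  simp [f, h1, h2]

theorem g_even (j : ℕ) : g (2 * j) =
    e (2 * j + 1) + (4 : ℂ) ^ j • e (2 * j + 2) - b j • e (2 * j) := by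
  simp [g]

theorem g_odd (j : ℕ) : g (2 * j + 1) = e (2 * j + 2) := by
  have h1 : (2 * j + 1) % 2 = 1 := by omega
  simp [g, h1]

theorem c4 : conj (4 : ℂ) = 4 := map_ofNat _ 4

theorem conj_b (j : ℕ) : conj (b j) = b j := by
  rcases Nat.eq_zero_or_pos j with rfl | h
  · simp [b_zero]
  · obtain ⟨i, rfl⟩ : ∃ i, j = i + 1 := ⟨j - 1, by omega⟩
    rw [b_succ, map_pow, c4]

theorem conj_four (j : ℕ) : conj ((4 : ℂ) ^ j) = 4 ^ j := by
  rw [map_pow, c4]

theorem phi_even (j : ℕ) (x : H) :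
    ⟪g (2 * j), x⟫_ℂ = x (2 * j + 1) + 4 ^ j * x (2 * j + 2) - b j * x (2 * j) := by
  rw [g_even, inner_sub_left, inner_add_left, inner_smul_left, inner_smul_left, inner_e, inner_e,
    inner_e, conj_b, conj_four]

theorem phi_odd (j : ℕ) (x : H) : ⟪g (2 * j + 1), x⟫_ℂ = x (2 * j + 2) := by
  rw [g_odd, inner_e]

theorem inner_e_right (k : ℕ) (y : H) : ⟪y, e k⟫_ℂ = conj (y k) := by
  rw [← inner_conj_symm, inner_e]

theorem psi_even (j : ℕ) (y : H) : ⟪y, f (2 * j)⟫_ℂ = conj (y (2 * j + 1)) := by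
  rw [f_even, inner_e_right]

theorem psi_odd (j : ℕ) (y : H) : ⟪y, f (2 * j + 1)⟫_ℂ =
    conj (y (2 * j + 2)) - 4 ^ j * conj (y (2 * j + 1)) + 4 ^ j * conj (y (2 * j + 3)) := by
  rw [f_odd, inner_add_right, inner_sub_right, inner_smul_right, inner_smul_right, inner_e_right,
    inner_e_right, inner_e_right]

theorem g_even_apply (i k : ℕ) : (g (2 * i) : H) k =
    (if k = 2 * i + 1 then 1 else 0) + 4 ^ i * (if k = 2 * i + 2 then 1 else 0) -
      b i * (if k = 2 * i then 1 else 0) := by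
  rw [← inner_e, g_even, inner_sub_right, inner_add_right, inner_smul_right, inner_smul_right,
    inner_e, inner_e, inner_e, e_apply, e_apply, e_apply]

theorem g_odd_apply (i k : ℕ) : (g (2 * i + 1) : H) k = if k = 2 * i + 2 then 1 else 0 := by
  rw [g_odd, e_apply]

/-- biorthogonality -/
theorem bi (m n : ℕ) : ⟪g m, f n⟫_ℂ = if n = m then 1 else 0 := by
  obtain ⟨i, hi⟩ := m.even_or_odd'
  obtain ⟨j, hj⟩ := n.even_or_odd'
  rcases hi with rfl | rfl <;> rcases hj with rfl | rfl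
  · rw [psi_even, g_even_apply]
    have h1 : ¬ (2 * j + 1 = 2 * i + 2) := by omega
    have h2 : ¬ (2 * j + 1 = 2 * i) := by omega
    by_cases h : j = i
    · subst h; simp
    · have h3 : ¬ (2 * j + 1 = 2 * i + 1) := by omega
      have h4 : ¬ (2 * j = 2 * i) := by omega
      rw [if_neg h1, if_neg h2, if_neg h3, if_neg h4]; simp
  · rw [psi_odd, g_even_apply, g_even_apply, g_even_apply]
    have h0 : ¬ (2 * j + 1 = 2 * i) := by omega
    have h1 : ¬ (2 * j + 2 = 2 * i + 1) := by omega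
    have h2 : ¬ (2 * j + 1 = 2 * i + 2) := by omega
    have h3 : ¬ (2 * j + 3 = 2 * i + 2) := by omega
    have h4 : ¬ (2 * j + 3 = 2 * i) := by omega
    by_cases h : j = i
    · subst h
      have h5 : ¬ (2 * j + 2 = 2 * j) := by omega
      have h6 : ¬ (2 * j + 3 = 2 * j + 1) := by omega
      simp [c4]
    · by_cases h' : i = j + 1
      · subst h'
        have h5 : ¬ (2 * j + 1 = 2 * (j + 1)) := by omega
        have h6 : 2 * j + 2 = 2 * (j + 1) := by omega
        have h7 : 2 * j + 3 = 2 * (j + 1) + 1 := by omega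
        have h8 : ¬ (2 * j + 2 = 2 * (j + 1) + 2) := by omega
        have h9 : ¬ (2 * j + 1 = 2 * (j + 1) + 1) := by omega
        rw [if_neg h0, if_neg h1, if_neg h2, if_neg h3, if_neg h4, if_pos h6, if_pos h7,
          if_neg h8, if_neg h9, b_succ]
        simp [c4]
      · have h5 : ¬ (2 * j + 2 = 2 * i + 2) := by omega
        have h6 : ¬ (2 * j + 2 = 2 * i) := by omega
        have h7 : ¬ (2 * j + 1 = 2 * i + 1) := by omega
        have h8 : ¬ (2 * j + 3 = 2 * i + 1) := by omega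
        rw [if_neg h0, if_neg h1, if_neg h2, if_neg h3, if_neg h4, if_neg h5, if_neg h6,
          if_neg h7, if_neg h8]
        simp
  · rw [psi_even, g_odd_apply]
    have h1 : ¬ (2 * j + 1 = 2 * i + 2) := by omega
    have h2 : ¬ (2 * j = 2 * i + 1) := by omega
    rw [if_neg h1, if_neg h2]; simp
  · rw [psi_odd, g_odd_apply, g_odd_apply, g_odd_apply]
    have h1 : ¬ (2 * j + 1 = 2 * i + 2) := by omega
    have h2 : ¬ (2 * j + 3 = 2 * i + 2) := by omega
    by_cases h : j = i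
    · subst h; simp
    · have h3 : ¬ (2 * j + 2 = 2 * i + 2) := by omega
      have h4 : ¬ (2 * j + 1 = 2 * i + 1) := by omega
      rw [if_neg h1, if_neg h2, if_neg h3, if_neg h4]; simp

theorem norm_e (k : ℕ) : ‖e k‖ = 1 := by
  rw [e, lp.norm_single (by norm_num)]
  simp

theorem four_le (n : ℕ) : (4 : ℝ) ^ (n / 2) ≤ 2 ^ n := by
  calc (4 : ℝ) ^ (n / 2) = 2 ^ (2 * (n / 2)) := by rw [pow_mul]; norm_num
    _ ≤ 2 ^ n := pow_le_pow_right₀ (by norm_num) (by omega)

theorem norm_f (n : ℕ) : ‖f n‖ ≤ 3 * 2 ^ n := by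
  have h1 : (1 : ℝ) ≤ 2 ^ n := one_le_pow₀ (by norm_num)
  unfold f
  split_ifs
  · rw [norm_e]; linarith
  · refine (norm_add_le _ _).trans ?_
    refine (add_le_add_left (norm_sub_le _ _) _).trans ?_
    rw [norm_smul, norm_smul, norm_e, norm_e, norm_e, norm_pow]
    have h2 := four_le n
    have h3 : ‖(4 : ℂ)‖ = 4 := by norm_num
    rw [h3]
    linarith

theorem norm_b (j : ℕ) : ‖b j‖ ≤ 4 ^ j := by
  rcases Nat.eq_zero_or_pos j with rfl | h
  · simp [b_zero]
  · obtain ⟨i, rfl⟩ : ∃ i, j = i + 1 := ⟨j - 1, by omega⟩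
    rw [b_succ, norm_pow]
    have h3 : ‖(4 : ℂ)‖ = 4 := by norm_num
    rw [h3]
    exact pow_le_pow_right₀ (by norm_num) (by omega)

theorem norm_g (n : ℕ) : ‖g n‖ ≤ 3 * 2 ^ n := by
  have h1 : (1 : ℝ) ≤ 2 ^ n := one_le_pow₀ (by norm_num)
  unfold g
  split_ifs
  · refine (norm_sub_le _ _).trans ?_
    refine (add_le_add_left (norm_add_le _ _) _).trans ?_
    rw [norm_smul, norm_smul, norm_e, norm_e, norm_e, norm_pow]
    have h2 := four_le n
    have h3 : ‖(4 : ℂ)‖ = 4 := by norm_num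
    have h4 := norm_b (n / 2)
    rw [h3]
    linarith
  · rw [norm_e]; linarith

theorem coord_tendsto (x : H) : Tendsto (fun k : ℕ => x k) atTop (𝓝 0) := by
  rw [tendsto_zero_iff_norm_tendsto_zero]
  have h1 : Summable fun k => ‖x k‖ ^ 2 := by
    have := (lp.memℓp x).summable (by norm_num)
    simpa using this
  have h2 := h1.tendsto_atTop_zero
  have h3 : Tendsto (fun k => √(‖x k‖ ^ 2)) atTop (𝓝 (√0)) :=
    (Real.continuous_sqrt.tendsto 0).comp h2
  simpa [Real.sqrt_sq] using h3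

/-- The system is hereditarily complete. -/
theorem strong {x y : H} (h : ∀ n, ⟪g n, x⟫_ℂ * ⟪y, f n⟫_ℂ = 0) :
    ⟪y, x⟫_ℂ = conj (y 0) * x 0 := by
  have hs0 : HasSum (fun k => conj (y k) * x k) ⟪y, x⟫_ℂ := by
    have h1 : (fun k => conj (y k) * x k) = fun k => ⟪y k, x k⟫_ℂ := by
      funext k
      rw [RCLike.inner_apply, mul_comm]
    rw [h1]
    exact lp.hasSum_inner (𝕜 := ℂ) y x
  have hs1 : HasSum (fun k => conj (y (k + 1)) * x (k + 1)) (⟪y, x⟫_ℂ - conj (y 0) * x 0) := by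
    have := (hasSum_nat_add_iff' 1).2 hs0
    simpa using this
  have hS : ∀ j : ℕ, ∑ k ∈ Finset.range (2 * j + 1), conj (y (k + 1)) * x (k + 1) =
      -(4 ^ j * x (2 * j + 2) * conj (y (2 * j + 1))) := by
    intro j
    induction j with
    | zero =>
      have h0 := h (2 * 0)
      rw [phi_even, psi_even, b_zero] at h0
      simp only [mul_zero, zero_add, pow_zero, one_mul, zero_mul, sub_zero, Finset.range_one,
        Finset.sum_singleton] at h0 ⊢
      linear_combination h0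
    | succ j ih =>
      have e1 : 2 * (j + 1) + 1 = (2 * j + 1) + 1 + 1 := by ring
      rw [e1, Finset.sum_range_succ, Finset.sum_range_succ, ih]
      have h1 := h (2 * j + 1)
      have h2 := h (2 * (j + 1))
      rw [phi_odd, psi_odd] at h1
      rw [phi_even, psi_even, b_succ] at h2
      have e2 : 2 * (j + 1) + 1 = 2 * j + 3 := by ring
      have e3 : 2 * (j + 1) + 2 = 2 * j + 4 := by ring
      have e4 : 2 * (j + 1) = 2 * j + 2 := by ring
      rw [e2, e3, e4] at h2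
      have e5 : 2 * j + 1 + 1 = 2 * j + 2 := by ring
      have e6 : 2 * j + 2 + 1 = 2 * j + 3 := by ring
      rw [e5, e6, e3, pow_succ] at *
      linear_combination h1 + h2
  have hlim : Tendsto (fun j : ℕ => -(4 ^ j * x (2 * j + 2) * conj (y (2 * j + 1)))) atTop
      (𝓝 (⟪y, x⟫_ℂ - conj (y 0) * x 0)) := by
    have h1 := hs1.tendsto_sum_nat
    have h2 : Tendsto (fun j : ℕ => 2 * j + 1) atTop atTop :=
      tendsto_atTop_mono (fun j => by simp only [id]; omega) tendsto_id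
    refine (h1.comp h2).congr fun j => ?_
    exact hS j
  by_contra hne
  have hne' : ⟪y, x⟫_ℂ - conj (y 0) * x 0 ≠ 0 := sub_ne_zero.2 hne
  have hev : ∀ᶠ j : ℕ in atTop, -(4 ^ j * x (2 * j + 2) * conj (y (2 * j + 1))) ≠ 0 :=
    hlim.eventually_ne hne'
  obtain ⟨J, hJ⟩ := eventually_atTop.1 hev
  have hx0 := coord_tendsto x
  have hy0 := coord_tendsto y
  have hstep : ∀ j, J ≤ j → ‖y (2 * j + 1) - y (2 * j + 3)‖ ≤ ‖y‖ * (1 / 4) ^ j := by
    intro j hj
    have h1 := h (2 * j + 1)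
    rw [phi_odd, psi_odd] at h1
    have hx : x (2 * j + 2) ≠ 0 := by
      intro h0
      apply hJ j hj
      rw [h0]; ring
    have h2 := (mul_eq_zero.1 h1).resolve_left hx
    have h3 : conj (y (2 * j + 2)) = 4 ^ j * conj (y (2 * j + 1) - y (2 * j + 3)) := by
      rw [map_sub]
      linear_combination h2
    have h4 := congrArg norm h3
    rw [RCLike.norm_conj, norm_mul, RCLike.norm_conj, norm_pow] at h4
    have h5 : ‖(4 : ℂ)‖ = 4 := by norm_num
    rw [h5] at h4
    have h6 : ‖y (2 * j + 2)‖ ≤ ‖y‖ := lp.norm_apply_le_norm (by norm_num) y _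
    rw [h4] at h6
    rw [one_div, inv_pow, ← div_eq_mul_inv, le_div_iff₀ (by positivity), mul_comm]
    exact h6
  have hbd : ∀ i : ℕ, ‖y (2 * (J + i) + 1)‖ ≤ (‖y‖ * (1 / 4) ^ J) * (1 / 4) ^ i / (1 - 1 / 4) := by
    intro i
    have h1 := dist_le_of_le_geometric_of_tendsto (1 / 4 : ℝ) (‖y‖ * (1 / 4) ^ J) (by norm_num)
      (f := fun i : ℕ => y (2 * (J + i) + 1)) (a := 0) (fun i => by
        rw [dist_eq_norm]
        have := hstep (J + i) (by omega)
        have e1 : 2 * (J + (i + 1)) + 1 = 2 * (J + i) + 3 := by ring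
        rw [e1]
        rw [pow_add, ← mul_assoc] at this
        exact this)
      (hy0.comp (tendsto_atTop_mono (fun i => by simp only [id]; omega) tendsto_id)) i
    rw [dist_zero_right] at h1
    exact h1
  have hz : Tendsto (fun i : ℕ => -(4 ^ (J + i) * x (2 * (J + i) + 2) *
      conj (y (2 * (J + i) + 1)))) atTop (𝓝 0) := by
    rw [tendsto_zero_iff_norm_tendsto_zero]
    have hx1 : Tendsto (fun i : ℕ => ‖x (2 * (J + i) + 2)‖ * (‖y‖ * (4 / 3))) atTop (𝓝 0) := by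
      have h1 : Tendsto (fun i : ℕ => x (2 * (J + i) + 2)) atTop (𝓝 0) :=
        hx0.comp (tendsto_atTop_mono (fun i => by simp only [id]; omega) tendsto_id)
      have h2 := h1.norm.mul_const (‖y‖ * (4 / 3))
      rw [norm_zero, zero_mul] at h2
      exact h2
    refine squeeze_zero (fun _ => norm_nonneg _) (fun i => ?_) hx1
    rw [norm_neg, norm_mul, norm_mul, norm_pow, RCLike.norm_conj]
    have h5 : ‖(4 : ℂ)‖ = 4 := by norm_num
    rw [h5]
    have h6 := hbd i
    have h7 : (4 : ℝ) ^ (J + i) * ((‖y‖ * (1 / 4) ^ J) * (1 / 4) ^ i / (1 - 1 / 4)) =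
        ‖y‖ * (4 / 3) := by
      rw [pow_add]
      have h8 : (4 : ℝ) ^ J * (1 / 4) ^ J = 1 := by rw [← mul_pow]; norm_num
      have h9 : (4 : ℝ) ^ i * (1 / 4) ^ i = 1 := by rw [← mul_pow]; norm_num
      calc (4 : ℝ) ^ J * 4 ^ i * ((‖y‖ * (1 / 4) ^ J) * (1 / 4) ^ i / (1 - 1 / 4)) =
          ‖y‖ * ((4 : ℝ) ^ J * (1 / 4) ^ J) * ((4 : ℝ) ^ i * (1 / 4) ^ i) * (4 / 3) := by ring
        _ = _ := by rw [h8, h9]; ring
    calc (4 : ℝ) ^ (J + i) * ‖x (2 * (J + i) + 2)‖ * ‖y (2 * (J + i) + 1)‖ =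
        ‖x (2 * (J + i) + 2)‖ * (4 ^ (J + i) * ‖y (2 * (J + i) + 1)‖) := by ring
      _ ≤ ‖x (2 * (J + i) + 2)‖ * (4 ^ (J + i) *
          ((‖y‖ * (1 / 4) ^ J) * (1 / 4) ^ i / (1 - 1 / 4))) := by gcongr
      _ = _ := by rw [h7]
  have hz2 := hlim.comp (tendsto_atTop_mono (fun i => by simp : ∀ i : ℕ, i ≤ J + i) tendsto_id)
  exact hne' (tendsto_nhds_unique hz2 hz)

end Pool.Agent.V110.LW
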