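import Mathlib
import Pool.Agent.V110.LW.Sys

/-!
# The operator `A = Σ 8⁻ⁿ fₙ ⊗ gₙ` and its invariant subspaces
-/

set_option autoImplicit false

open scoped InnerProductSpace ComplexConjugate
open Filter Topology

namespace Pool.Agent.V110.LW

/-- the eigenvalues -/
noncomputable def lam (n : ℕ) : ℂ := (1 / 8 : ℂ) ^ n

theorem norm_lam (n : ℕ) : ‖lam n‖ = (1 / 8 : ℝ) ^ n := by
  rw [lam, norm_pow]
  congr 1
  norm_num

/-- the idempotents -/
noncomputable def P (n : ℕ) : H →L[ℂ] H := (innerSL ℂ (g n)).smulRight (f n)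

theorem P_apply (n : ℕ) (x : H) : P n x = ⟪g n, x⟫_ℂ • f n := by
  simp [P]

theorem norm_P (n : ℕ) : ‖P n‖ ≤ 9 * 4 ^ n := by
  refine ContinuousLinearMap.opNorm_le_bound _ (by positivity) fun x => ?_
  rw [P_apply, norm_smul]
  have h1 := norm_inner_le_norm (𝕜 := ℂ) (g n) x
  have h2 := norm_g n
  have h3 := norm_f n
  have h4 : (4 : ℝ) ^ n = 2 ^ n * 2 ^ n := by rw [← mul_pow]; norm_num
  calc ‖⟪g n, x⟫_ℂ‖ * ‖f n‖ ≤ (‖g n‖ * ‖x‖) * ‖f n‖ := by gcongr
    _ ≤ ((3 * 2 ^ n) * ‖x‖) * (3 * 2 ^ n) := by gcongr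
    _ = 9 * 4 ^ n * ‖x‖ := by rw [h4]; ring

theorem summable_lamP : Summable fun n => lam n • P n := by
  refine Summable.of_norm_bounded (g := fun n : ℕ => 9 * (1 / 2 : ℝ) ^ n)
    (summable_geometric_two.mul_left 9) fun n => ?_
  rw [norm_smul, norm_lam]
  have := norm_P n
  calc (1 / 8 : ℝ) ^ n * ‖P n‖ ≤ (1 / 8 : ℝ) ^ n * (9 * 4 ^ n) := by gcongr
    _ = 9 * ((1 / 8 : ℝ) ^ n * 4 ^ n) := by ring
    _ = 9 * (1 / 2 : ℝ) ^ n := by rw [← mul_pow]; norm_num

noncomputable def A : H →L[ℂ] H := ∑' n, lam n • P n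

theorem A_hasSum (x : H) : HasSum (fun n => (lam n * ⟪g n, x⟫_ℂ) • f n) (A x) := by
  have h := (ContinuousLinearMap.apply ℂ H x).hasSum summable_lamP.hasSum
  have h1 : (fun n => (lam n * ⟪g n, x⟫_ℂ) • f n) =
      fun n => (ContinuousLinearMap.apply ℂ H x) (lam n • P n) := by
    funext n
    change _ = lam n • (P n x)
    rw [P_apply, smul_smul]
  rw [h1]
  exact h

theorem A_f (m : ℕ) : A (f m) = lam m • f m := by
  have h := A_hasSum (f m)
  have h2 : HasSum (fun n => (lam n * ⟪g n, f m⟫_ℂ) • f n) (lam m • f m) := by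
    have := hasSum_single (f := fun n => (lam n * ⟪g n, f m⟫_ℂ) • f n) m (fun n hn => by
      rw [bi, if_neg (Ne.symm hn), mul_zero, zero_smul])
    have h3 : ⟪g m, f m⟫_ℂ = 1 := by rw [bi, if_pos rfl]
    rw [h3, mul_one] at this
    exact this
  exact h.unique h2

theorem A_e0 : A (e 0) = 0 := by
  have h := A_hasSum (e 0)
  have h2 : ∀ n, ⟪g n, e 0⟫_ℂ = 0 := by
    intro n
    obtain ⟨j, rfl | rfl⟩ := n.even_or_odd'
    · rw [phi_even, e_apply, e_apply, e_apply, if_neg (by omega), if_neg (by omega)]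
      rcases Nat.eq_zero_or_pos j with rfl | hj
      · rw [b_zero]; ring
      · rw [if_neg (by omega)]; ring
    · rw [phi_odd, e_apply, if_neg (by omega)]
  have h3 : HasSum (fun n => (lam n * ⟪g n, e 0⟫_ℂ) • f n) 0 := by
    simp only [h2, mul_zero, zero_smul]
    exact hasSum_zero
  exact h.unique h3

theorem pow_hasSum (k : ℕ) (x : H) :
    HasSum (fun n => (lam n ^ (k + 1) * ⟪g n, x⟫_ℂ) • f n) ((A ^ (k + 1)) x) := by
  induction k with
  | zero => simpa using A_hasSum x
  | succ k ih =>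
    have h := A.hasSum ih
    rw [pow_succ' A]
    have h1 : (fun n => (lam n ^ (k + 1 + 1) * ⟪g n, x⟫_ℂ) • f n) =
        fun n => A ((lam n ^ (k + 1) * ⟪g n, x⟫_ℂ) • f n) := by
      funext n
      rw [map_smul, A_f, smul_smul]
      congr 1
      ring
    rw [h1]
    exact h

/-- functional calculus for polynomials -/
theorem poly_hasSum (p : Polynomial ℂ) (x : H) :
    HasSum (fun n => ((p.eval (lam n) - p.eval 0) * ⟪g n, x⟫_ℂ) • f n)
      ((Polynomial.aeval A p) x - p.eval 0 • x) := by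
  induction p using Polynomial.induction_on' with
  | add p q hp hq =>
    have h := hp.add hq
    have h1 : (fun n => (((p + q).eval (lam n) - (p + q).eval 0) * ⟪g n, x⟫_ℂ) • f n) =
        fun n => (((p.eval (lam n) - p.eval 0) * ⟪g n, x⟫_ℂ) • f n) +
          (((q.eval (lam n) - q.eval 0) * ⟪g n, x⟫_ℂ) • f n) := by
      funext n
      rw [Polynomial.eval_add, Polynomial.eval_add, ← add_smul]
      congr 1
      ring
    have h2 : (Polynomial.aeval A (p + q)) x - (p + q).eval 0 • x =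
        ((Polynomial.aeval A p) x - p.eval 0 • x) + ((Polynomial.aeval A q) x - q.eval 0 • x) := by
      rw [map_add, Polynomial.eval_add, add_smul]
      change (Polynomial.aeval A p) x + (Polynomial.aeval A q) x - _ = _
      abel
    rw [h1, h2]
    exact h
  | monomial k a =>
    rcases k with _ | k
    · have h1 : (fun n => (((Polynomial.monomial 0 a).eval (lam n) -
          (Polynomial.monomial 0 a).eval 0) * ⟪g n, x⟫_ℂ) • f n) = fun _ => (0 : H) := by
        funext n
        simp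
      have h2 : (Polynomial.aeval A (Polynomial.monomial 0 a)) x -
          (Polynomial.monomial 0 a).eval 0 • x = 0 := by
        rw [Polynomial.aeval_monomial, pow_zero, mul_one, Algebra.algebraMap_eq_smul_one]
        simp
      rw [h1, h2]
      exact hasSum_zero
    · have h := (pow_hasSum k x).const_smul a
      have h1 : (fun n => (((Polynomial.monomial (k + 1) a).eval (lam n) -
          (Polynomial.monomial (k + 1) a).eval 0) * ⟪g n, x⟫_ℂ) • f n) =
          fun n => a • ((lam n ^ (k + 1) * ⟪g n, x⟫_ℂ) • f n) := by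
        funext n
        rw [smul_smul]
        congr 1
        simp
        ring
      have h2 : (Polynomial.aeval A (Polynomial.monomial (k + 1) a)) x -
          (Polynomial.monomial (k + 1) a).eval 0 • x = a • ((A ^ (k + 1)) x) := by
        rw [Polynomial.aeval_monomial, Algebra.algebraMap_eq_smul_one]
        simp
      rw [h1, h2]
      exact h

/-- a sequence with vanishing moments vanishes -/
theorem moments {c : ℕ → ℂ} (hs : Summable fun n => ‖lam n * c n‖)
    (h : ∀ k : ℕ, HasSum (fun n => lam n ^ (k + 1) * c n) 0) : ∀ n, c n = 0 := by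
  intro N
  induction N using Nat.strong_induction_on with
  | _ N ih =>
    set S : ℝ := ∑' n, ‖lam n * c n‖ with hS
    have key : ∀ k : ℕ, ‖c N‖ ≤ (1 / 8 : ℝ) ^ k * (8 ^ N * S) := by
      intro k
      have h1 := (h k).sub (hasSum_single (f := fun n => if n = N then lam N ^ (k + 1) * c N else 0)
        N (fun n hn => if_neg hn))
      have h2 : ‖lam N ^ (k + 1) * c N‖ ≤ ((1 / 8 : ℝ) ^ (N + 1)) ^ k * S := by
        have h3 : HasSum (fun n => lam n ^ (k + 1) * c n - if n = N then lam N ^ (k + 1) * c N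
            else 0) (-(lam N ^ (k + 1) * c N)) := by
          simpa using h1
        rw [← norm_neg, ← h3.tsum_eq]
        refine tsum_of_norm_bounded (g := fun n => ((1 / 8 : ℝ) ^ (N + 1)) ^ k * ‖lam n * c n‖)
          (hs.hasSum.mul_left _) fun n => ?_
        rcases lt_trichotomy n N with hn | hn | hn
        · rw [ih n hn, if_neg hn.ne]
          simp
        · subst hn
          simp only [if_true, sub_self, norm_zero]
          positivity
        · rw [if_neg hn.ne', sub_zero, pow_succ, mul_assoc, norm_mul, norm_pow, norm_lam]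
          have h5 : (1 / 8 : ℝ) ^ n ≤ (1 / 8 : ℝ) ^ (N + 1) :=
            pow_le_pow_of_le_one (by norm_num) (by norm_num) (Nat.succ_le_of_lt hn)
          exact mul_le_mul_of_nonneg_right (pow_le_pow_left₀ (by positivity) h5 k) (norm_nonneg _)
      rw [norm_mul, norm_pow, norm_lam] at h2
      have h8 : (8 : ℝ) ^ N * (1 / 8 : ℝ) ^ N = 1 := by rw [← mul_pow]; norm_num
      have h9 : ‖c N‖ = (8 ^ N) ^ (k + 1) * (((1 / 8 : ℝ) ^ N) ^ (k + 1) * ‖c N‖) := by
        rw [← mul_assoc, ← mul_pow, h8, one_pow, one_mul]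
      rw [h9]
      calc ((8 : ℝ) ^ N) ^ (k + 1) * (((1 / 8 : ℝ) ^ N) ^ (k + 1) * ‖c N‖) ≤
          ((8 : ℝ) ^ N) ^ (k + 1) * (((1 / 8 : ℝ) ^ (N + 1)) ^ k * S) := by gcongr
        _ = (1 / 8 : ℝ) ^ k * (8 ^ N * S) * (8 ^ N * (1 / 8 : ℝ) ^ N) ^ k := by
            rw [pow_succ, pow_succ, mul_pow, mul_pow]; ring
        _ = _ := by rw [h8, one_pow, mul_one]
    have hlim : Tendsto (fun k : ℕ => (1 / 8 : ℝ) ^ k * (8 ^ N * S)) atTop (𝓝 0) := by
      have := (tendsto_pow_atTop_nhds_zero_of_lt_one (r := (1 / 8 : ℝ)) (by norm_num)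
        (by norm_num)).mul_const (8 ^ N * S)
      rwa [zero_mul] at this
    have h0 : ‖c N‖ ≤ 0 := ge_of_tendsto' hlim key
    exact norm_le_zero_iff.1 h0

end Pool.Agent.V110.LW
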