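import Mathlib
import Pool.Agent.V110.LW.Op

/-!
# Every invariant subspace of `A` is spanned by eigenvectors, and `A` is not reflexive
-/

set_option autoImplicit false

open scoped InnerProductSpace ComplexConjugate
open Filter Topology

namespace Pool.Agent.V110.LW

theorem lam_norm_bound (x y : H) : Summable fun n => ‖lam n * (⟪g n, x⟫_ℂ * ⟪y, f n⟫_ℂ)‖ := by
  refine Summable.of_norm_bounded (g := fun n : ℕ => (9 * ‖x‖ * ‖y‖) * (1 / 2 : ℝ) ^ n)
    (summable_geometric_two.mul_left _) fun n => ?_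
  rw [norm_norm, norm_mul, norm_mul, norm_lam]
  have h1 := norm_inner_le_norm (𝕜 := ℂ) (g n) x
  have h2 := norm_inner_le_norm (𝕜 := ℂ) y (f n)
  have h3 := norm_g n
  have h4 := norm_f n
  calc (1 / 8 : ℝ) ^ n * (‖⟪g n, x⟫_ℂ‖ * ‖⟪y, f n⟫_ℂ‖) ≤
      (1 / 8 : ℝ) ^ n * ((‖g n‖ * ‖x‖) * (‖y‖ * ‖f n‖)) := by gcongr
    _ ≤ (1 / 8 : ℝ) ^ n * (((3 * 2 ^ n) * ‖x‖) * (‖y‖ * (3 * 2 ^ n))) := by gcongr
    _ = (9 * ‖x‖ * ‖y‖) * ((1 / 8 : ℝ) ^ n * 2 ^ n * 2 ^ n) := by ring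
    _ = _ := by rw [← mul_pow, ← mul_pow]; norm_num

section inv

variable {M : Submodule ℂ H} (hM : IsClosed (M : Set H)) (hi : ∀ x ∈ M, A x ∈ M)

include hM hi

omit hM in
theorem pow_mem (k : ℕ) : ∀ x ∈ M, (A ^ k) x ∈ M := by
  induction k with
  | zero => intro x hx; simpa using hx
  | succ k ih =>
    intro x hx
    rw [pow_succ']
    exact hi _ (ih x hx)

omit hM in
theorem products {x y : H} (hx : x ∈ M) (hy : y ∈ Mᗮ) (n : ℕ) :
    ⟪g n, x⟫_ℂ * ⟪y, f n⟫_ℂ = 0 := by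
  refine moments (lam_norm_bound x y) (fun k => ?_) n
  have h1 := (innerSL ℂ y).hasSum (pow_hasSum k x)
  have h2 : ⟪y, (A ^ (k + 1)) x⟫_ℂ = 0 :=
    Submodule.inner_left_of_mem_orthogonal (pow_mem hi (k + 1) x hx) hy
  have h3 : (innerSL ℂ y) ((A ^ (k + 1)) x) = 0 := h2
  rw [h3] at h1
  have h4 : (fun n => lam n ^ (k + 1) * (⟪g n, x⟫_ℂ * ⟪y, f n⟫_ℂ)) =
      fun n => (innerSL ℂ y) ((lam n ^ (k + 1) * ⟪g n, x⟫_ℂ) • f n) := by
    funext n
    change _ = ⟪y, (lam n ^ (k + 1) * ⟪g n, x⟫_ℂ) • f n⟫_ℂ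
    rw [inner_smul_right]
    ring
  rw [h4]
  exact h1

theorem mem_of_orth {v : H} (h : ∀ y ∈ Mᗮ, ⟪y, v⟫_ℂ = 0) : v ∈ M := by
  have hc : CompleteSpace M := hM.completeSpace_coe
  rw [← Submodule.orthogonal_orthogonal M]
  rw [Submodule.mem_orthogonal]
  exact h

theorem f_mem {x : H} (hx : x ∈ M) {n : ℕ} (hn : ⟪g n, x⟫_ℂ ≠ 0) : f n ∈ M := by
  refine mem_of_orth hM hi fun y hy => ?_
  exact (mul_eq_zero.1 (products hi hx hy n)).resolve_left hn

theorem e0_mem {x : H} (hx : x ∈ M) (h0 : x 0 ≠ 0) : e 0 ∈ M := by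
  refine mem_of_orth hM hi fun y hy => ?_
  have h1 := strong (fun n => products hi hx hy n)
  have h2 : ⟪y, x⟫_ℂ = 0 := Submodule.inner_left_of_mem_orthogonal hx hy
  rw [h2] at h1
  rw [inner_e_right]
  exact (mul_eq_zero.1 h1.symm).resolve_right h0

/-- every closed invariant subspace is spanned by eigenvectors -/
theorem synthesis :
    M = (Submodule.span ℂ {x : H | x ∈ M ∧ ∃ c : ℂ, A x = c • x}).topologicalClosure := by
  set E : Submodule ℂ H := Submodule.span ℂ {x : H | x ∈ M ∧ ∃ c : ℂ, A x = c • x} with hE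
  refine le_antisymm ?_ ?_
  · intro x hx
    have hEc : IsClosed (E.topologicalClosure : Set H) := E.isClosed_topologicalClosure
    have hc : CompleteSpace E.topologicalClosure := hEc.completeSpace_coe
    have hsub : E ≤ E.topologicalClosure := Submodule.le_topologicalClosure _
    rw [← Submodule.orthogonal_orthogonal E.topologicalClosure, Submodule.mem_orthogonal]
    intro y hy
    have h1 : ∀ n, ⟪g n, x⟫_ℂ * ⟪y, f n⟫_ℂ = 0 := by
      intro n
      by_cases hn : ⟪g n, x⟫_ℂ = 0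
      · rw [hn, zero_mul]
      · have h2 : f n ∈ E.topologicalClosure :=
          hsub (Submodule.subset_span ⟨f_mem hM hi hx hn, lam n, A_f n⟩)
        rw [Submodule.inner_left_of_mem_orthogonal h2 hy, mul_zero]
    rw [strong h1]
    by_cases h0 : x 0 = 0
    · rw [h0, mul_zero]
    · have h2 : e 0 ∈ E.topologicalClosure := by
        refine hsub (Submodule.subset_span ⟨e0_mem hM hi hx h0, 0, ?_⟩)
        rw [A_e0, zero_smul]
      have h3 := Submodule.inner_left_of_mem_orthogonal h2 hy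
      rw [inner_e_right] at h3
      rw [h3, zero_mul]
  · refine Submodule.topologicalClosure_minimal _ ?_ hM
    rw [hE, Submodule.span_le]
    rintro x ⟨hx, -⟩
    exact hx

end inv

/-- the projection that kills `e 0` -/
noncomputable def B : H →L[ℂ] H :=
  ContinuousLinearMap.id ℂ H - (innerSL ℂ (e 0)).smulRight (e 0)

theorem B_apply (x : H) : B x = x - x 0 • e 0 := by
  change x - ⟪e 0, x⟫_ℂ • e 0 = _
  rw [inner_e]

theorem B_mem {M : Submodule ℂ H} (hM : IsClosed (M : Set H)) (hi : ∀ x ∈ M, A x ∈ M) :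
    ∀ x ∈ M, B x ∈ M := by
  intro x hx
  rw [B_apply]
  by_cases h0 : x 0 = 0
  · rw [h0, zero_smul, sub_zero]; exact hx
  · exact Submodule.sub_mem _ hx (Submodule.smul_mem _ _ (e0_mem hM hi hx h0))

/-- the vectors of the separating functional -/
noncomputable def p1 (j : ℕ) : ℂ := if j % 2 = 0 then -(1 / 2) ^ j else -2 * (1 / 2) ^ j
noncomputable def p2 (j : ℕ) : ℂ := if j % 2 = 0 then -2 * (1 / 2) ^ j else -(1 / 2) ^ j
noncomputable def q1 (j : ℕ) : ℂ := if j % 2 = 0 then (1 / 2) ^ j else 0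
noncomputable def q2 (j : ℕ) : ℂ := if j % 2 = 0 then 0 else (1 / 2) ^ j

theorem nrm (j : ℕ) : ‖(1 / 2 : ℂ) ^ j‖ = (1 / 2 : ℝ) ^ j := by
  rw [norm_pow]; congr 1; norm_num

theorem np1 (j : ℕ) : ‖p1 j‖ ≤ 2 * (1 / 2) ^ j := by
  have : (0 : ℝ) < (1 / 2) ^ j := by positivity
  unfold p1
  split_ifs
  · rw [norm_neg, nrm]; linarith
  · rw [norm_mul, nrm]; norm_num
theorem np2 (j : ℕ) : ‖p2 j‖ ≤ 2 * (1 / 2) ^ j := by
  have : (0 : ℝ) < (1 / 2) ^ j := by positivity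
  unfold p2
  split_ifs
  · rw [norm_mul, nrm]; norm_num
  · rw [norm_neg, nrm]; linarith
theorem nq1 (j : ℕ) : ‖q1 j‖ ≤ 2 * (1 / 2) ^ j := by
  have : (0 : ℝ) < (1 / 2) ^ j := by positivity
  unfold q1
  split_ifs
  · rw [nrm]; linarith
  · rw [norm_zero]; linarith
theorem nq2 (j : ℕ) : ‖q2 j‖ ≤ 2 * (1 / 2) ^ j := by
  have : (0 : ℝ) < (1 / 2) ^ j := by positivity
  unfold q2
  split_ifs
  · rw [norm_zero]; linarith
  · rw [nrm]; linarith

theorem mem_of_bound {c : ℕ → ℂ} (h : ∀ k, ‖c k‖ ≤ 8 * (1 / 2) ^ (k / 2)) :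
    Memℓp c (2 : ENNReal) := by
  rw [memℓp_gen_iff (by norm_num)]
  have h4 : Summable fun k : ℕ => 128 * (1 / 2 : ℝ) ^ k := summable_geometric_two.mul_left _
  refine Summable.of_nonneg_of_le (fun k => by positivity) (fun k => ?_) h4
  have e1 : ‖c k‖ ^ (2 : ENNReal).toReal = ‖c k‖ ^ 2 := by simp
  rw [e1]
  have h1 := h k
  have h2 : ‖c k‖ ^ 2 ≤ (8 * (1 / 2 : ℝ) ^ (k / 2)) ^ 2 := by gcongr
  refine h2.trans ?_
  have h3 : ((1 / 2 : ℝ) ^ (k / 2)) ^ 2 ≤ 2 * (1 / 2) ^ k := by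
    rw [← pow_mul]
    have h5 : (1 / 2 : ℝ) ^ (k / 2 * 2 + 1) ≤ (1 / 2) ^ k :=
      pow_le_pow_of_le_one (by norm_num) (by norm_num) (by omega)
    rw [pow_succ] at h5
    linarith
  calc (8 * (1 / 2 : ℝ) ^ (k / 2)) ^ 2 = 64 * ((1 / 2 : ℝ) ^ (k / 2)) ^ 2 := by ring
    _ ≤ 64 * (2 * (1 / 2) ^ k) := by gcongr
    _ = 128 * (1 / 2) ^ k := by ring

/-- vector carried by the positive even coordinates: value `p (j)` at `2 j + 2` -/
noncomputable def vx (p : ℕ → ℂ) (hp : ∀ j, ‖p j‖ ≤ 2 * (1 / 2) ^ j) : H :=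
  ⟨fun k => if k % 2 = 0 ∧ k ≠ 0 then p (k / 2 - 1) else 0, mem_of_bound fun k => by
    split_ifs with h
    · refine (hp _).trans ?_
      have h1 : k / 2 = (k / 2 - 1) + 1 := by omega
      rw [h1, pow_succ, Nat.add_sub_cancel]
      have : (0 : ℝ) < (1 / 2) ^ (k / 2 - 1) := by positivity
      linarith
    · rw [norm_zero]; positivity⟩

/-- vector carried by the odd coordinates: value `q (j)` at `2 j + 1` -/
noncomputable def vy (q : ℕ → ℂ) (hq : ∀ j, ‖q j‖ ≤ 2 * (1 / 2) ^ j) : H :=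
  ⟨fun k => if k % 2 = 1 then q (k / 2) else 0, mem_of_bound fun k => by
    split_ifs with h
    · refine (hq _).trans ?_
      have : (0 : ℝ) < (1 / 2) ^ (k / 2) := by positivity
      linarith
    · rw [norm_zero]; positivity⟩

theorem vx_odd (p : ℕ → ℂ) (hp) (j : ℕ) : (vx p hp : H) (2 * j + 1) = 0 := by
  change (if (2 * j + 1) % 2 = 0 ∧ _ then _ else (0 : ℂ)) = 0
  rw [if_neg (by omega)]
theorem vx_even (p : ℕ → ℂ) (hp) (j : ℕ) : (vx p hp : H) (2 * j + 2) = p j := by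
  change (if (2 * j + 2) % 2 = 0 ∧ _ then p ((2 * j + 2) / 2 - 1) else (0 : ℂ)) = _
  rw [if_pos (by omega)]
  congr 1
  omega
theorem vx_zero (p : ℕ → ℂ) (hp) : (vx p hp : H) 0 = 0 := by
  change (if 0 % 2 = 0 ∧ (0 : ℕ) ≠ 0 then p (0 / 2 - 1) else (0 : ℂ)) = 0
  rw [if_neg (by simp)]
theorem vy_odd (q : ℕ → ℂ) (hq) (j : ℕ) : (vy q hq : H) (2 * j + 1) = q j := by
  change (if (2 * j + 1) % 2 = 1 then q ((2 * j + 1) / 2) else (0 : ℂ)) = _
  rw [if_pos (by omega)]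
  congr 1
  omega
theorem vy_even (q : ℕ → ℂ) (hq) (j : ℕ) : (vy q hq : H) (2 * j) = 0 := by
  change (if (2 * j) % 2 = 1 then _ else (0 : ℂ)) = 0
  rw [if_neg (by omega)]

theorem inner_vy_vx (p q : ℕ → ℂ) (hp hq) : ⟪vy q hq, vx p hp⟫_ℂ = 0 := by
  have h := lp.hasSum_inner (𝕜 := ℂ) (vy q hq) (vx p hp)
  have h1 : (fun k => ⟪(vy q hq : H) k, (vx p hp : H) k⟫_ℂ) = fun _ => (0 : ℂ) := by
    funext k
    obtain ⟨j, rfl | rfl⟩ := k.even_or_odd'
    · rw [vy_even, inner_zero_left]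
    · rw [vx_odd, inner_zero_right]
  rw [h1] at h
  exact h.unique hasSum_zero

theorem conj_half (j : ℕ) : conj ((1 / 2 : ℂ) ^ j) = (1 / 2) ^ j := by
  have h2 : conj (2 : ℂ) = 2 := map_ofNat _ 2
  rw [map_pow, map_div₀, map_one, h2]

theorem conj_q1 (j : ℕ) : conj (q1 j) = q1 j := by
  unfold q1; split_ifs
  · exact conj_half j
  · simp
theorem conj_q2 (j : ℕ) : conj (q2 j) = q2 j := by
  unfold q2; split_ifs
  · simp
  · exact conj_half j

theorem four_half (j : ℕ) : (4 : ℂ) ^ j * ((1 / 2) ^ j * (1 / 2) ^ j) = 1 := by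
  rw [← mul_pow, ← mul_pow]; norm_num

theorem pq (j : ℕ) : 4 ^ j * (p1 j * q1 j + p2 j * q2 j) = -1 := by
  have h := four_half j
  unfold p1 p2 q1 q2
  split_ifs
  · linear_combination -h
  · linear_combination -h

theorem pq' (j : ℕ) : 4 ^ j * (p1 j * q1 (j + 1) + p2 j * q2 (j + 1)) = -1 := by
  have h := four_half j
  unfold p1 p2 q1 q2
  rcases Nat.mod_two_eq_zero_or_one j with hj | hj
  · have h1 : ¬ ((j + 1) % 2 = 0) := by omega
    rw [if_pos hj, if_pos hj, if_neg h1, if_neg h1, pow_succ]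
    linear_combination -h
  · have h1 : (j + 1) % 2 = 0 := by omega
    have h2 : ¬ (j % 2 = 0) := by omega
    rw [if_neg h2, if_neg h2, if_pos h1, if_pos h1, pow_succ]
    linear_combination -h

noncomputable def X1 : H := vx p1 np1
noncomputable def X2 : H := vx p2 np2
noncomputable def Y1 : H := vy q1 nq1
noncomputable def Y2 : H := vy q2 nq2

theorem annih (n : ℕ) : ⟪g n, X1⟫_ℂ * ⟪Y1, f n⟫_ℂ + ⟪g n, X2⟫_ℂ * ⟪Y2, f n⟫_ℂ +
    ⟪g n, e 1⟫_ℂ * ⟪e 1, f n⟫_ℂ = 0 := by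
  obtain ⟨j, rfl | rfl⟩ := n.even_or_odd'
  · rw [phi_even, phi_even, phi_even, psi_even, psi_even, psi_even, X1, X2, Y1, Y2, vx_odd, vx_odd,
      vx_even, vx_even, vy_odd, vy_odd, conj_q1, conj_q2, e_apply, e_apply, e_apply]
    have h := pq j
    rcases Nat.eq_zero_or_pos j with rfl | hj
    · rw [b_zero]
      simp only [pow_zero, one_mul] at h
      simp
      linear_combination h
    · obtain ⟨i, rfl⟩ : ∃ i, j = i + 1 := ⟨j - 1, by omega⟩
      have h' := pq' i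
      have e1 : 2 * (i + 1) = 2 * i + 2 := by ring
      rw [e1, vx_even, vx_even, b_succ, if_neg (by omega), if_neg (by omega), if_neg (by omega)]
      simp only [map_zero, mul_zero, sub_zero, zero_add, add_zero]
      linear_combination h - h'
  · rw [phi_odd, phi_odd, phi_odd, psi_odd, psi_odd, psi_odd, X1, X2, Y1, Y2, vx_even, vx_even,
      e_apply, if_neg (by omega : ¬ (2 * j + 2 = 1))]
    have e1 : 2 * j + 2 = 2 * (j + 1) := by ring
    have e2 : 2 * j + 3 = 2 * (j + 1) + 1 := by ring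
    rw [e1, e2, vy_even, vy_even, vy_odd, vy_odd, vy_odd, vy_odd, conj_q1, conj_q1, conj_q2,
      conj_q2]
    have h := pq j
    have h' := pq' j
    simp only [map_zero, zero_mul, zero_sub, add_zero]
    linear_combination h' - h

theorem g_e0 (n : ℕ) : ⟪g n, e 0⟫_ℂ = 0 := by
  obtain ⟨j, rfl | rfl⟩ := n.even_or_odd'
  · rw [phi_even, e_apply, e_apply, e_apply, if_neg (by omega), if_neg (by omega)]
    rcases Nat.eq_zero_or_pos j with rfl | hj
    · rw [b_zero]; ring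
    · rw [if_neg (by omega)]; ring
  · rw [phi_odd, e_apply, if_neg (by omega)]

theorem poly_e0 (p : Polynomial ℂ) : (Polynomial.aeval A p) (e 0) = p.eval 0 • e 0 := by
  have h := poly_hasSum p (e 0)
  have h1 : (fun n => ((p.eval (lam n) - p.eval 0) * ⟪g n, e 0⟫_ℂ) • f n) = fun _ => (0 : H) := by
    funext n
    rw [g_e0, mul_zero, zero_smul]
  rw [h1] at h
  exact sub_eq_zero.1 (h.unique hasSum_zero)

/-- the separating functional -/
noncomputable def Psi (T : H →L[ℂ] H) : ℂ :=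
  ⟪Y1, T X1⟫_ℂ + ⟪Y2, T X2⟫_ℂ + ⟪e 1, T (e 1)⟫_ℂ - ⟪e 0, T (e 0)⟫_ℂ

theorem Psi_poly (p : Polynomial ℂ) : Psi (Polynomial.aeval A p) = 0 := by
  have h1 := (innerSL ℂ Y1).hasSum (poly_hasSum p X1)
  have h2 := (innerSL ℂ Y2).hasSum (poly_hasSum p X2)
  have h3 := (innerSL ℂ (e 1)).hasSum (poly_hasSum p (e 1))
  have h4 := (h1.add h2).add h3
  have h5 : (fun n => (innerSL ℂ Y1) (((p.eval (lam n) - p.eval 0) * ⟪g n, X1⟫_ℂ) • f n) +
      (innerSL ℂ Y2) (((p.eval (lam n) - p.eval 0) * ⟪g n, X2⟫_ℂ) • f n) +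
      (innerSL ℂ (e 1)) (((p.eval (lam n) - p.eval 0) * ⟪g n, e 1⟫_ℂ) • f n)) =
      fun _ => (0 : ℂ) := by
    funext n
    rw [map_smul, map_smul, map_smul]
    change ((p.eval (lam n) - p.eval 0) * ⟪g n, X1⟫_ℂ) * ⟪Y1, f n⟫_ℂ +
      ((p.eval (lam n) - p.eval 0) * ⟪g n, X2⟫_ℂ) * ⟪Y2, f n⟫_ℂ +
      ((p.eval (lam n) - p.eval 0) * ⟪g n, e 1⟫_ℂ) * ⟪e 1, f n⟫_ℂ = 0
    have := annih n
    linear_combination (p.eval (lam n) - p.eval 0) * this
  have h6 := h4.unique (h5 ▸ hasSum_zero)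
  have h7 : ⟪Y1, (Polynomial.aeval A p) X1 - p.eval 0 • X1⟫_ℂ +
      ⟪Y2, (Polynomial.aeval A p) X2 - p.eval 0 • X2⟫_ℂ +
      ⟪e 1, (Polynomial.aeval A p) (e 1) - p.eval 0 • e 1⟫_ℂ = 0 := h6
  rw [inner_sub_right, inner_sub_right, inner_sub_right, inner_smul_right, inner_smul_right,
    inner_smul_right, inner_e 1 (e 1), e_apply, if_pos rfl] at h7
  have h8 : ⟪Y1, X1⟫_ℂ = 0 := inner_vy_vx _ _ _ _
  have h9 : ⟪Y2, X2⟫_ℂ = 0 := inner_vy_vx _ _ _ _
  rw [h8, h9] at h7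
  unfold Psi
  rw [poly_e0, inner_smul_right, inner_e 0 (e 0), e_apply, if_pos rfl]
  linear_combination h7

theorem Psi_B : Psi B = 1 := by
  have h8 : ⟪Y1, X1⟫_ℂ = 0 := inner_vy_vx _ _ _ _
  have h9 : ⟪Y2, X2⟫_ℂ = 0 := inner_vy_vx _ _ _ _
  have h1 : (X1 : H) 0 = 0 := vx_zero _ _
  have h2 : (X2 : H) 0 = 0 := vx_zero _ _
  unfold Psi
  rw [B_apply, B_apply, B_apply, B_apply, h1, h2, zero_smul, sub_zero, sub_zero, h8, h9, e_apply,
    e_apply, if_neg (by omega), if_pos rfl, zero_smul, sub_zero, one_smul, sub_self,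
    inner_zero_right, inner_e, e_apply, if_pos rfl]
  ring

theorem Psi_sub (S T : H →L[ℂ] H) : Psi (S - T) = Psi S - Psi T := by
  unfold Psi
  simp only [sub_apply, inner_sub_right]
  ring

end Pool.Agent.V110.LW
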